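import Mathlib
import Pool.Agent.V11104.GG.Final

set_option autoImplicit false

/-!
# Scaling entropy growth gap of lamplighter groups with non-abelian lamps

For every finite non-abelian group `A` the lamplighter group `A ≀ ℤ` has a scaling entropy growth gap. The Følner
sets are `F n = {σ^(-j) b : 0 ≤ j ≤ n, b a configuration on [0, n]}`, and the gap function is `log₂ n`.

Proof. Let `ρ` be an admissible generating semimetric for an essentially free action and `z ≠ 1` a commutator of `A`,
regarded as a lamp at `0`. Some function `u = min(ρ(g₀ ·, y), 1)` is not invariant under `z` (Fubini, positive measure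
of balls). In `L²` let `f j` be the part of `u ∘ σ^(-j)` orthogonal to the vectors fixed by the commutator subgroup
of the lamp at `j`. If a unitary representation of `A ^ S` has no nonzero vectors fixed by the commutator subgroup of
any factor then its dimension is at least `2 ^ |S|`; hence the largest eigenvalue of the Gram operator of the vectors
`b f j` (`b` in `A ^ [0, n]`) is at most `|A| ^ (n + 1) ‖f 0‖² / 2`, and a space of dimension less than `n + 1` cannot
contain good approximations of all of them. A partition of `X` into `k + 1` pieces as in the definition gives such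
approximations in a space of dimension `k + 1`.
-/

namespace Pool.Agent.Results.MP_a6e297_an.NonabelianLamps

open MeasureTheory Filter Topology Pool.Agent.V11104.GG
open scoped ENNReal NNReal

lemma lamps_countable (A : Type*) [Group A] [Finite A] : Countable (Lamps A) := by
  have hs : Function.Surjective (fun p : (Σ N : ℕ, Fin N → A) × ℤ => shift A p.2 (emb p.1.1 p.1.2)) := by
    intro l
    have hf : {i | (l : ℤ → A) i ≠ 1}.Finite := l.2
    obtain ⟨r, hr⟩ := (hf.image Int.natAbs).bddAbove
    have hl : ∀ i : ℤ, (l : ℤ → A) i ≠ 1 → i.natAbs ≤ r := fun i hi => hr (Set.mem_image_of_mem _ hi)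
    obtain ⟨b, hb⟩ := emb_surj (N := 2 * r + 1) (l := shift A (r : ℤ) l) (by
      intro i hi
      change (l : ℤ → A) (i - r) = 1
      by_contra hc
      have := hl _ hc
      omega)
    refine ⟨(⟨2 * r + 1, b⟩, -(r : ℤ)), ?_⟩
    change shift A (-(r : ℤ)) (emb (2 * r + 1) b) = l
    rw [hb]
    ext i
    change (l : ℤ → A) (i - -(r : ℤ) - r) = (l : ℤ → A) i
    rw [sub_neg_eq_add, add_sub_cancel_right]
  exact hs.countable

lemma lamplighter_countable (A : Type*) [Group A] [Finite A] : Countable (Lamplighter A) := by
  have := lamps_countable A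
  have : Countable (Multiplicative ℤ) := inferInstanceAs (Countable ℤ)
  exact (SemidirectProduct.equivProd (φ := shiftHom A)).countable_iff.mpr inferInstance

theorem result (A : Type*) [Group A] [Finite A] (hA : ∃ a b : A, a * b ≠ b * a) : GrowthGap (Lamplighter A) := by
  classical
  have hFin := Fintype.ofFinite A
  have hcount := lamplighter_countable A
  obtain ⟨a, b, hab⟩ := hA
  obtain ⟨z, hz, hz1⟩ : ∃ z ∈ commutator A, z ≠ 1 := by
    refine ⟨a * b * a⁻¹ * b⁻¹, ?_, fun h => hab ?_⟩
    · exact Subgroup.commutator_mem_commutator (Subgroup.mem_top a) (Subgroup.mem_top b)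
    · rw [mul_inv_eq_one, mul_inv_eq_iff_eq_mul] at h
      exact h
  refine ⟨FF A, folner, fun n => (Real.logb 2 n).toNNReal, ?_, ?_⟩
  · intro C
    obtain ⟨m, hm⟩ := exists_nat_gt C
    refine ⟨2 ^ m, ?_⟩
    have e : Real.logb 2 ((2 ^ m : ℕ) : ℝ) = m := by
      push_cast
      rw [Real.logb_pow, Real.logb_self_eq_one (by norm_num), mul_one]
    change C < (Real.logb 2 ((2 ^ m : ℕ) : ℝ)).toNNReal
    rw [e]
    simpa using hm
  · intro X _ _ _ μ _ hmp hfree ρ hρ _ had hgen
    have hc : (l0 z : Lamplighter A) ≠ 1 := by
      intro h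
      rw [← l0_one] at h
      exact hz1 (l0_inj h)
    obtain ⟨g₀, y, hmv⟩ := moved hmp hρ had hgen (hfree _ hc)
    have hB : Bd fun x => min (ρ (g₀ • x) y) 1 := by
      refine ⟨?_, fun x => ?_⟩
      · refine Measurable.min ?_ measurable_const
        exact hρ.meas.comp ((hmp g₀).measurable.prodMk measurable_const)
      · rw [abs_le]
        have := le_min (hρ.nonneg (g₀ • x) y) zero_le_one
        exact ⟨by linarith, min_le_right _ _⟩
    obtain ⟨M, hM⟩ : ∃ M : ℝ, M = ‖V0 hmp (tl μ hB)‖ ^ 2 := ⟨_, rfl⟩
    have hM0 : 0 < M := by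
      rw [hM]
      exact V0_pos hmp hB hz hmv
    have hbad := (folner (A := A)).2 g₀
    have hev : ∀ᶠ n : ℕ in atTop, (({h | h ∈ FF A n ∧ g₀ * h ∉ FF A n} : Set (Lamplighter A)).ncard : ℝ) /
        (FF A n).card ≤ M / 32 :=
      hbad.eventually_le_const (by positivity)
    intro ε _
    refine ⟨M / 32, by positivity, ?_⟩
    have hle : limsup (fun n : ℕ => (((Real.logb 2 n).toNNReal : ℝ≥0) : ℝ≥0∞) / Hent μ (avgOver (FF A n) ρ) (M / 32)) atTop ≤ 1 := by
      refine limsup_le_of_le (by isBoundedDefault) ?_
      filter_upwards [hev, eventually_ge_atTop 1] with n hn hn1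
      refine ENNReal.div_le_of_le_mul ?_
      rw [one_mul]
      unfold Hent
      refine le_iInf₂ fun k hk => ?_
      have h1 : n ≤ k := pieces hmp hρ hB hM hM0 hn hk.2
      have h2 : Real.logb 2 n ≤ Real.logb 2 k := by
        refine Real.logb_le_logb_of_le (by norm_num) ?_ (by exact_mod_cast h1)
        exact_mod_cast hn1
      exact ENNReal.ofReal_le_ofReal h2
    exact hle.trans_lt ENNReal.one_lt_top

end Pool.Agent.Results.MP_a6e297_an.NonabelianLamps
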